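import Pool.Agent.H54S.Fam

/-!
A kernel-checkable certificate for families of edge-disjoint symmetric chain decompositions:
subsets of an `n`-set are numbers below `2 ^ n`.
-/

set_option autoImplicit false

namespace Pool.Agent.H54S

/-- number of ones among the last `n` binary digits -/
def pc : ℕ → ℕ → ℕ
  | 0, _ => 0
  | n + 1, v => v % 2 + pc n (v / 2)

/-- the entry number `v` of the packed array `D` with entries of `W` bits -/
def ent (W D v : ℕ) : ℕ := (D >>> (W * v)) % 2 ^ W

/-- `true` if `f` is true on all numbers below `k` -/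
def loop (f : ℕ → Bool) (k : ℕ) : Bool :=
  Nat.rec true (fun k ih => Bool.and (f k) ih) k

theorem loop_spec (f : ℕ → Bool) (k : ℕ) (h : loop f k = true) : ∀ i < k, f i = true := by
  induction k with
  | zero => intro i hi; omega
  | succ k ih =>
    have h' : (f k && loop f k) = true := h
    rw [Bool.and_eq_true] at h'
    intro i hi
    rcases Nat.lt_succ_iff_lt_or_eq.1 hi with hi | rfl
    · exact ih h'.2 i hi
    · exact h'.1

/-- conditions for one vertex of one decomposition -/
def chk1 (n W D v p : ℕ) : Bool :=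
  Nat.ble (ent W D v / 256 / 2 ^ n) p && (Nat.ble (p + ent W D v / 256 / 2 ^ n) n &&
  ((bif Nat.beq (ent W D v / 256 / 2 ^ n) p then Nat.beq (ent W D v / 256 % 2 ^ n) v else
     (Nat.blt (ent W D v % 16) n && (Nat.testBit v (ent W D v % 16) &&
       (Nat.beq (ent W D (v ^^^ 2 ^ (ent W D v % 16)) / 256) (ent W D v / 256) &&
        Nat.beq (ent W D (v ^^^ 2 ^ (ent W D v % 16)) / 16 % 16) (ent W D v % 16))))) &&
  (bif Nat.blt (p + ent W D v / 256 / 2 ^ n) n then
     (Nat.blt (ent W D v / 16 % 16) n && ((!(Nat.testBit v (ent W D v / 16 % 16))) &&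
       Nat.beq (ent W D (v ||| 2 ^ (ent W D v / 16 % 16)) / 256) (ent W D v / 256)))
   else true)))

/-- disjointness of two decompositions at one vertex -/
def chk2 (n W D D' v p : ℕ) : Bool :=
  (bif Nat.blt (p + ent W D v / 256 / 2 ^ n) n then
    (bif Nat.blt (p + ent W D' v / 256 / 2 ^ n) n then
      !(Nat.beq (ent W D v / 16 % 16) (ent W D' v / 16 % 16)) else true) else true)

/-- all conditions at one vertex -/
def chkV (n W K : ℕ) (Dt : ℕ → ℕ) (v p : ℕ) : Bool :=
  loop (fun i => chk1 n W (Dt i) v p) K &&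
  loop (fun j => loop (fun i => chk2 n W (Dt i) (Dt j) v p) j) K

/-- all conditions, vertices in blocks of 64 -/
def chk (n W K : ℕ) (Dt : ℕ → ℕ) (B : ℕ) : Bool :=
  loop (fun a => loop (fun b => chkV n W K Dt (a * 64 + b) (pc n (a * 64 + b))) 64) B

/-- the subset with mask `v` -/
def ms (n v : ℕ) : Finset (Fin n) := Finset.univ.filter (fun x => v.testBit x = true)

theorem mem_ms {n v : ℕ} (x : Fin n) : x ∈ ms n v ↔ v.testBit x = true := by
  simp [ms]

theorem card_ms (n v : ℕ) : (ms n v).card = pc n v := by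
  induction n generalizing v with
  | zero => simp [ms, pc]
  | succ n ih =>
    unfold ms
    rw [Fin.card_filter_univ_succ]
    have h1 : (Finset.univ.filter (fun x : Fin n => v.testBit (x.succ : Fin (n + 1)) = true)) =
        ms n (v / 2) := by
      unfold ms
      apply Finset.filter_congr
      intro x _
      rw [Fin.val_succ, Nat.testBit_succ]
    rw [h1, ih]
    have h0 : v.testBit ((0 : Fin (n + 1)) : ℕ) = decide (v % 2 = 1) := by
      simp
    rw [h0]
    show _ = v % 2 + pc n (v / 2)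
    split_ifs with h
    · have h' : v % 2 = 1 := by simpa using h
      rw [h']; omega
    · have h' : v % 2 ≠ 1 := by simpa using h
      omega

/-- masks below `2 ^ n` are the subsets of `Fin n` -/
noncomputable def msEquiv (n : ℕ) : Fin (2 ^ n) ≃ Finset (Fin n) :=
  Equiv.ofBijective (fun v => ms n v) (by
    rw [Fintype.bijective_iff_injective_and_card]
    refine ⟨?_, by simp⟩
    intro v w h
    apply Fin.ext
    apply Nat.eq_of_testBit_eq
    intro i
    by_cases hi : i < n
    · have := Finset.ext_iff.1 h ⟨i, hi⟩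
      rw [mem_ms, mem_ms] at this
      exact Bool.eq_iff_iff.2 this
    · have hv : (v : ℕ) < 2 ^ i := lt_of_lt_of_le v.2 (Nat.pow_le_pow_right (by norm_num) (by omega))
      have hw : (w : ℕ) < 2 ^ i := lt_of_lt_of_le w.2 (Nat.pow_le_pow_right (by norm_num) (by omega))
      rw [Nat.testBit_lt_two_pow hv, Nat.testBit_lt_two_pow hw])

theorem CE_or {n v x : ℕ} (hx : x < n) (hv : v.testBit x = false) :
    CE (ms n v) (ms n (v ||| 2 ^ x)) := by
  classical
  have : ms n (v ||| 2 ^ x) = insert ⟨x, hx⟩ (ms n v) := by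
    ext y
    rw [Finset.mem_insert, mem_ms, mem_ms, Nat.testBit_or, Nat.testBit_two_pow, Bool.or_eq_true,
      decide_eq_true_eq, Fin.ext_iff]
    constructor
    · rintro (h | h)
      · exact Or.inr h
      · exact Or.inl h.symm
    · rintro (h | h)
      · exact Or.inr h.symm
      · exact Or.inl h
  rw [this]
  refine ⟨Finset.subset_insert _ _, Finset.card_insert_of_notMem ?_⟩
  rw [mem_ms]
  simp [hv]

theorem xor_or {v x : ℕ} (hv : v.testBit x = true) :
    (v ^^^ 2 ^ x) ||| 2 ^ x = v ∧ (v ^^^ 2 ^ x).testBit x = false := by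
  constructor
  · apply Nat.eq_of_testBit_eq
    intro i
    rw [Nat.testBit_or, Nat.testBit_xor, Nat.testBit_two_pow]
    by_cases h : x = i
    · subst h; simp [hv]
    · simp [h]
  · rw [Nat.testBit_xor, Nat.testBit_two_pow]
    simp [hv]

theorem good_of_chk {n W K : ℕ} {Dt : ℕ → ℕ} {B : ℕ} (hB : 2 ^ n = B * 64)
    (h : chk n W K Dt B = true) : Good (Fin n) K := by
  have hV : ∀ v < 2 ^ n, chkV n W K Dt v (pc n v) = true := by
    intro v hv
    have h1 := loop_spec _ _ h (v / 64) (by omega)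
    have h2 := loop_spec _ _ h1 (v % 64) (by omega)
    have e : v / 64 * 64 + v % 64 = v := by omega
    rw [e] at h2
    exact h2
  have hA : ∀ i < K, ∀ v < 2 ^ n, chk1 n W (Dt i) v (pc n v) = true := by
    intro i hi v hv
    have := hV v hv
    unfold chkV at this
    rw [Bool.and_eq_true] at this
    exact loop_spec _ _ this.1 i hi
  have hD : ∀ j < K, ∀ i < j, ∀ v < 2 ^ n, chk2 n W (Dt i) (Dt j) v (pc n v) = true := by
    intro j hj i hi v hv
    have := hV v hv
    unfold chkV at this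
    rw [Bool.and_eq_true] at this
    exact loop_spec _ _ (loop_spec _ _ this.2 j hj) i hi
  clear hV
  -- the fields
  set F : Fin K → ℕ → ℕ := fun i v => ent W (Dt i) v / 256 with hF
  set U : Fin K → ℕ → ℕ := fun i v => ent W (Dt i) v / 16 % 16 with hU
  have P : ∀ (i : Fin K) (v : ℕ), v < 2 ^ n →
      (F i v / 2 ^ n ≤ pc n v ∧ pc n v + F i v / 2 ^ n ≤ n) ∧
      (F i v / 2 ^ n = pc n v → F i v % 2 ^ n = v) ∧
      (F i v / 2 ^ n < pc n v → ∃ x < n, v.testBit x = true ∧ F i (v ^^^ 2 ^ x) = F i v ∧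
        U i (v ^^^ 2 ^ x) = x) ∧
      (pc n v + F i v / 2 ^ n < n → U i v < n ∧ v.testBit (U i v) = false ∧
        F i (v ||| 2 ^ (U i v)) = F i v) := by
    intro i v hv
    have h1 := hA i i.2 v hv
    unfold chk1 at h1
    simp only [Bool.and_eq_true, Nat.ble_eq] at h1
    obtain ⟨h2, h3, h4, h5⟩ := h1
    refine ⟨⟨h2, h3⟩, ?_, ?_, ?_⟩
    · intro he
      have he' : Nat.beq (ent W (Dt i) v / 256 / 2 ^ n) (pc n v) = true := by
        rw [Nat.beq_eq]; exact he
      rw [he'] at h4
      simp only [cond_true] at h4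
      exact Nat.eq_of_beq_eq_true h4
    · intro he
      have he' : Nat.beq (ent W (Dt i) v / 256 / 2 ^ n) (pc n v) = false := by
        rw [← Bool.not_eq_true, Nat.beq_eq]
        exact Nat.ne_of_lt he
      rw [he'] at h4
      simp only [cond_false, Bool.and_eq_true] at h4
      obtain ⟨g1, g2, g3, g4⟩ := h4
      refine ⟨ent W (Dt i) v % 16, ?_, g2, Nat.eq_of_beq_eq_true g3, Nat.eq_of_beq_eq_true g4⟩
      exact Eq.mp Nat.blt_eq g1
    · intro he
      have he' : Nat.blt (pc n v + ent W (Dt i) v / 256 / 2 ^ n) n = true := Eq.mpr Nat.blt_eq he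
      rw [he'] at h5
      simp only [cond_true, Bool.and_eq_true] at h5
      obtain ⟨g1, g2, g3⟩ := h5
      refine ⟨Eq.mp Nat.blt_eq g1, ?_, Nat.eq_of_beq_eq_true g3⟩
      simpa using g2
  have Q : ∀ (i j : Fin K), i ≠ j → ∀ v < 2 ^ n, pc n v + F i v / 2 ^ n < n →
      pc n v + F j v / 2 ^ n < n → U i v ≠ U j v := by
    have key : ∀ (i j : Fin K), i < j → ∀ v < 2 ^ n, pc n v + F i v / 2 ^ n < n →
      pc n v + F j v / 2 ^ n < n → U i v ≠ U j v := by
      intro i j hij v hv h1 h2 he
      have := hD j j.2 i hij v hv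
      unfold chk2 at this
      have e1 : Nat.blt (pc n v + ent W (Dt i) v / 256 / 2 ^ n) n = true := Eq.mpr Nat.blt_eq h1
      have e2 : Nat.blt (pc n v + ent W (Dt j) v / 256 / 2 ^ n) n = true := Eq.mpr Nat.blt_eq h2
      have e3 : Nat.beq (ent W (Dt i) v / 16 % 16) (ent W (Dt j) v / 16 % 16) = true := by
        rw [Nat.beq_eq]; exact he
      rw [e1, e2, e3] at this
      simp at this
    intro i j hij v hv h1 h2
    rcases lt_or_gt_of_ne hij with h | h
    · exact key i j h v hv h1 h2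
    · exact (key j i h v hv h2 h1).symm
  have hxl : ∀ v x, v < 2 ^ n → x < n → v ^^^ 2 ^ x < 2 ^ n := fun v x hv hx =>
    Nat.xor_lt_two_pow hv (Nat.pow_lt_pow_right (by norm_num) hx)
  have hol : ∀ v x, v < 2 ^ n → x < n → v ||| 2 ^ x < 2 ^ n := fun v x hv hx =>
    Nat.or_lt_two_pow hv (Nat.pow_lt_pow_right (by norm_num) hx)
  have hpc : ∀ v x, x < n → v.testBit x = true → pc n v = pc n (v ^^^ 2 ^ x) + 1 := by
    intro v x hx hv
    obtain ⟨e1, e2⟩ := xor_or hv
    have := (CE_or hx e2).2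
    rw [e1, card_ms, card_ms] at this
    exact this
  have inj : ∀ (i : Fin K) (k v w : ℕ), v < 2 ^ n → w < 2 ^ n → F i v = F i w →
      pc n v = pc n w → pc n v - F i v / 2 ^ n = k → v = w := by
    intro i k
    induction k with
    | zero =>
      intro v w hv hw h1 h2 h3
      obtain ⟨p1, p1', -, -⟩ := P i v hv
      obtain ⟨-, p2', -, -⟩ := P i w hw
      have e1 : F i v / 2 ^ n = pc n v := by
        clear p1' p2'
        omega
      have e2 : F i w / 2 ^ n = pc n w := by rw [← h1, ← h2]; exact e1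
      rw [← p1' e1, ← p2' e2, h1]
    | succ k ih =>
      intro v w hv hw h1 h2 h3
      have e1 : F i v / 2 ^ n < pc n v := by
        clear ih
        omega
      have e2 : F i w / 2 ^ n < pc n w := by
        rw [← h1, ← h2]
        exact e1
      obtain ⟨x, hx, hxv, hx1, hx2⟩ := (P i v hv).2.2.1 e1
      obtain ⟨y, hy, hyv, hy1, hy2⟩ := (P i w hw).2.2.1 e2
      have c1 := hpc v x hx hxv
      have c2 := hpc w y hy hyv
      have c3 : pc n (v ^^^ 2 ^ x) = pc n (w ^^^ 2 ^ y) := by
        clear ih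
        omega
      have c4 : pc n (v ^^^ 2 ^ x) - F i (v ^^^ 2 ^ x) / 2 ^ n = k := by
        rw [hx1]
        clear ih
        omega
      have e := ih (v ^^^ 2 ^ x) (w ^^^ 2 ^ y) (hxl v x hv hx) (hxl w y hw hy)
        (by rw [hx1, hy1, h1]) c3 c4
      have hxy : x = y := by rw [← hx2, ← hy2, e]
      subst hxy
      rw [← (xor_or hxv).1, ← (xor_or hyv).1, e]
  refine Fam.transport (V := Fin (2 ^ n)) (rk := fun v => (ms n v).card)
    (E := fun v w => CE (ms n v) (ms n w)) (msEquiv n) (fun v => rfl) (fun v w => Iff.rfl) ?_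
  rw [Fintype.card_fin]
  refine ⟨ℕ, fun c => c / 2 ^ n, fun i v => F i v, ?_, ?_, ?_, ?_, ?_⟩
  · intro i v w h1 h2
    simp only [card_ms] at h2
    exact Fin.ext (inj i _ v w v.2 w.2 h1 h2 rfl)
  · intro i v
    simp only [card_ms]
    exact (P i v v.2).1
  · intro i v hlt
    simp only [card_ms] at hlt
    obtain ⟨g1, g2, g3⟩ := (P i v v.2).2.2.2 hlt
    exact ⟨⟨(v : ℕ) ||| 2 ^ (U i v), hol _ _ v.2 g1⟩, CE_or g1 g2, g3⟩
  · intro i v hlt
    simp only [card_ms] at hlt
    obtain ⟨x, g1, g2, g3, -⟩ := (P i v v.2).2.2.1 hlt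
    refine ⟨⟨(v : ℕ) ^^^ 2 ^ x, hxl _ _ v.2 g1⟩, ?_, g3⟩
    have := CE_or g1 (xor_or g2).2
    rw [(xor_or g2).1] at this
    exact this
  · intro i j hij v w hvw h1 h2
    have hr : pc n w = pc n v + 1 := by
      have := hvw.2
      rwa [card_ms, card_ms] at this
    have key : ∀ i : Fin K, F i v = F i w → pc n v + F i v / 2 ^ n < n ∧ U i v < n ∧
        (v : ℕ).testBit (U i v) = false ∧ (w : ℕ) = (v : ℕ) ||| 2 ^ (U i v) := by
      intro i h1
      have p2 := (P i w w.2).1.2
      have hlt : pc n v + F i v / 2 ^ n < n := by rw [h1]; omega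
      obtain ⟨g1, g2, g3⟩ := (P i v v.2).2.2.2 hlt
      refine ⟨hlt, g1, g2, ?_⟩
      refine inj i _ _ _ w.2 (hol _ _ v.2 g1) (by rw [g3, h1]) ?_ rfl
      have := (CE_or g1 g2).2
      rw [card_ms, card_ms] at this
      omega
    obtain ⟨a1, a2, a3, a4⟩ := key i h1
    obtain ⟨b1, b2, b3, b4⟩ := key j h2
    apply Q i j hij v v.2 a1 b1
    have hb : (w : ℕ).testBit (U i v) = true := by
      rw [a4, Nat.testBit_or, Nat.testBit_two_pow]; simp
    rw [b4, Nat.testBit_or, Nat.testBit_two_pow, a3] at hb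
    simp only [Bool.false_or, decide_eq_true_eq] at hb
    exact hb.symm

end Pool.Agent.H54S
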