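import Pool.Agent.H54S.Interval
import Pool.Agent.H54S.Bits

/-!
As `good_of_chk`, without blocks, and monotonicity in the number of decompositions.
-/

set_option autoImplicit false

namespace Pool.Agent.H54S

theorem Good.mono {n K L : ℕ} (h : Good (Fin n) K) (hL : L ≤ K) : Good (Fin n) L := by
  obtain ⟨C, st, ch, a1, a2, a3, a4, a5⟩ := h
  refine ⟨C, st, fun i => ch (Fin.castLE hL i), fun i => a1 _, fun i => a2 _, fun i => a3 _,
    fun i => a4 _, fun i j hij => a5 _ _ ?_⟩
  intro he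
  exact hij (Fin.castLE_injective hL he)

theorem good_of_all {n W K : ℕ} {Dt : ℕ → ℕ}
    (hV : ∀ v < 2 ^ n, chkV n W K Dt v (pc n v) = true) : Good (Fin n) K := by
  have hA : ∀ i < K, ∀ v < 2 ^ n, chk1 n W (Dt i) v (pc n v) = true := by
    intro i hi v hv
    have := hV v hv
    unfold chkV at this
    rw [Bool.and_eq_true] at this
    exact loop_spec _ _ this.1 i hi
  have hD : ∀ j < K, ∀ i < j, ∀ v < 2 ^ n, chk2 n W (Dt i) (Dt j) v (pc n v) = true := by
    intro j hj i hi v hv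
    have := hV v hv
    unfold chkV at this
    rw [Bool.and_eq_true] at this
    exact loop_spec _ _ (loop_spec _ _ this.2 j hj) i hi
  clear hV
  -- the fields
  set F : Fin K → ℕ → ℕ := fun i v => ent W (Dt i) v / 256 with hF
  set U : Fin K → ℕ → ℕ := fun i v => ent W (Dt i) v / 16 % 16 with hU
  have P : ∀ (i : Fin K) (v : ℕ), v < 2 ^ n →
      (F i v / 2 ^ n ≤ pc n v ∧ pc n v + F i v / 2 ^ n ≤ n) ∧
      (F i v / 2 ^ n = pc n v → F i v % 2 ^ n = v) ∧
      (F i v / 2 ^ n < pc n v → ∃ x < n, v.testBit x = true ∧ F i (v ^^^ 2 ^ x) = F i v ∧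
        U i (v ^^^ 2 ^ x) = x) ∧
      (pc n v + F i v / 2 ^ n < n → U i v < n ∧ v.testBit (U i v) = false ∧
        F i (v ||| 2 ^ (U i v)) = F i v) := by
    intro i v hv
    have h1 := hA i i.2 v hv
    unfold chk1 at h1
    simp only [Bool.and_eq_true, Nat.ble_eq] at h1
    obtain ⟨h2, h3, h4, h5⟩ := h1
    refine ⟨⟨h2, h3⟩, ?_, ?_, ?_⟩
    · intro he
      have he' : Nat.beq (ent W (Dt i) v / 256 / 2 ^ n) (pc n v) = true := by
        rw [Nat.beq_eq]; exact he
      rw [he'] at h4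
      simp only [cond_true] at h4
      exact Nat.eq_of_beq_eq_true h4
    · intro he
      have he' : Nat.beq (ent W (Dt i) v / 256 / 2 ^ n) (pc n v) = false := by
        rw [← Bool.not_eq_true, Nat.beq_eq]
        exact Nat.ne_of_lt he
      rw [he'] at h4
      simp only [cond_false, Bool.and_eq_true] at h4
      obtain ⟨g1, g2, g3, g4⟩ := h4
      refine ⟨ent W (Dt i) v % 16, ?_, g2, Nat.eq_of_beq_eq_true g3, Nat.eq_of_beq_eq_true g4⟩
      exact Eq.mp Nat.blt_eq g1
    · intro he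
      have he' : Nat.blt (pc n v + ent W (Dt i) v / 256 / 2 ^ n) n = true := Eq.mpr Nat.blt_eq he
      rw [he'] at h5
      simp only [cond_true, Bool.and_eq_true] at h5
      obtain ⟨g1, g2, g3⟩ := h5
      refine ⟨Eq.mp Nat.blt_eq g1, ?_, Nat.eq_of_beq_eq_true g3⟩
      simpa using g2
  have Q : ∀ (i j : Fin K), i ≠ j → ∀ v < 2 ^ n, pc n v + F i v / 2 ^ n < n →
      pc n v + F j v / 2 ^ n < n → U i v ≠ U j v := by
    have key : ∀ (i j : Fin K), i < j → ∀ v < 2 ^ n, pc n v + F i v / 2 ^ n < n →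
      pc n v + F j v / 2 ^ n < n → U i v ≠ U j v := by
      intro i j hij v hv h1 h2 he
      have := hD j j.2 i hij v hv
      unfold chk2 at this
      have e1 : Nat.blt (pc n v + ent W (Dt i) v / 256 / 2 ^ n) n = true := Eq.mpr Nat.blt_eq h1
      have e2 : Nat.blt (pc n v + ent W (Dt j) v / 256 / 2 ^ n) n = true := Eq.mpr Nat.blt_eq h2
      have e3 : Nat.beq (ent W (Dt i) v / 16 % 16) (ent W (Dt j) v / 16 % 16) = true := by
        rw [Nat.beq_eq]; exact he
      rw [e1, e2, e3] at this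
      simp at this
    intro i j hij v hv h1 h2
    rcases lt_or_gt_of_ne hij with h | h
    · exact key i j h v hv h1 h2
    · exact (key j i h v hv h2 h1).symm
  have hxl : ∀ v x, v < 2 ^ n → x < n → v ^^^ 2 ^ x < 2 ^ n := fun v x hv hx =>
    Nat.xor_lt_two_pow hv (Nat.pow_lt_pow_right (by norm_num) hx)
  have hol : ∀ v x, v < 2 ^ n → x < n → v ||| 2 ^ x < 2 ^ n := fun v x hv hx =>
    Nat.or_lt_two_pow hv (Nat.pow_lt_pow_right (by norm_num) hx)
  have hpc : ∀ v x, x < n → v.testBit x = true → pc n v = pc n (v ^^^ 2 ^ x) + 1 := by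
    intro v x hx hv
    obtain ⟨e1, e2⟩ := xor_or hv
    have := (CE_or hx e2).2
    rw [e1, card_ms, card_ms] at this
    exact this
  have inj : ∀ (i : Fin K) (k v w : ℕ), v < 2 ^ n → w < 2 ^ n → F i v = F i w →
      pc n v = pc n w → pc n v - F i v / 2 ^ n = k → v = w := by
    intro i k
    induction k with
    | zero =>
      intro v w hv hw h1 h2 h3
      obtain ⟨p1, p1', -, -⟩ := P i v hv
      obtain ⟨-, p2', -, -⟩ := P i w hw
      have e1 : F i v / 2 ^ n = pc n v := by
        clear p1' p2'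
        omega
      have e2 : F i w / 2 ^ n = pc n w := by rw [← h1, ← h2]; exact e1
      rw [← p1' e1, ← p2' e2, h1]
    | succ k ih =>
      intro v w hv hw h1 h2 h3
      have e1 : F i v / 2 ^ n < pc n v := by
        clear ih
        omega
      have e2 : F i w / 2 ^ n < pc n w := by
        rw [← h1, ← h2]
        exact e1
      obtain ⟨x, hx, hxv, hx1, hx2⟩ := (P i v hv).2.2.1 e1
      obtain ⟨y, hy, hyv, hy1, hy2⟩ := (P i w hw).2.2.1 e2
      have c1 := hpc v x hx hxv
      have c2 := hpc w y hy hyv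
      have c3 : pc n (v ^^^ 2 ^ x) = pc n (w ^^^ 2 ^ y) := by
        clear ih
        omega
      have c4 : pc n (v ^^^ 2 ^ x) - F i (v ^^^ 2 ^ x) / 2 ^ n = k := by
        rw [hx1]
        clear ih
        omega
      have e := ih (v ^^^ 2 ^ x) (w ^^^ 2 ^ y) (hxl v x hv hx) (hxl w y hw hy)
        (by rw [hx1, hy1, h1]) c3 c4
      have hxy : x = y := by rw [← hx2, ← hy2, e]
      subst hxy
      rw [← (xor_or hxv).1, ← (xor_or hyv).1, e]
  refine Fam.transport (V := Fin (2 ^ n)) (rk := fun v => (ms n v).card)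
    (E := fun v w => CE (ms n v) (ms n w)) (msEquiv n) (fun v => rfl) (fun v w => Iff.rfl) ?_
  rw [Fintype.card_fin]
  refine ⟨ℕ, fun c => c / 2 ^ n, fun i v => F i v, ?_, ?_, ?_, ?_, ?_⟩
  · intro i v w h1 h2
    simp only [card_ms] at h2
    exact Fin.ext (inj i _ v w v.2 w.2 h1 h2 rfl)
  · intro i v
    simp only [card_ms]
    exact (P i v v.2).1
  · intro i v hlt
    simp only [card_ms] at hlt
    obtain ⟨g1, g2, g3⟩ := (P i v v.2).2.2.2 hlt
    exact ⟨⟨(v : ℕ) ||| 2 ^ (U i v), hol _ _ v.2 g1⟩, CE_or g1 g2, g3⟩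
  · intro i v hlt
    simp only [card_ms] at hlt
    obtain ⟨x, g1, g2, g3, -⟩ := (P i v v.2).2.2.1 hlt
    refine ⟨⟨(v : ℕ) ^^^ 2 ^ x, hxl _ _ v.2 g1⟩, ?_, g3⟩
    have := CE_or g1 (xor_or g2).2
    rw [(xor_or g2).1] at this
    exact this
  · intro i j hij v w hvw h1 h2
    have hr : pc n w = pc n v + 1 := by
      have := hvw.2
      rwa [card_ms, card_ms] at this
    have key : ∀ i : Fin K, F i v = F i w → pc n v + F i v / 2 ^ n < n ∧ U i v < n ∧
        (v : ℕ).testBit (U i v) = false ∧ (w : ℕ) = (v : ℕ) ||| 2 ^ (U i v) := by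
      intro i h1
      have p2 := (P i w w.2).1.2
      have hlt : pc n v + F i v / 2 ^ n < n := by rw [h1]; omega
      obtain ⟨g1, g2, g3⟩ := (P i v v.2).2.2.2 hlt
      refine ⟨hlt, g1, g2, ?_⟩
      refine inj i _ _ _ w.2 (hol _ _ v.2 g1) (by rw [g3, h1]) ?_ rfl
      have := (CE_or g1 g2).2
      rw [card_ms, card_ms] at this
      omega
    obtain ⟨a1, a2, a3, a4⟩ := key i h1
    obtain ⟨b1, b2, b3, b4⟩ := key j h2
    apply Q i j hij v v.2 a1 b1
    have hb : (w : ℕ).testBit (U i v) = true := by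
      rw [a4, Nat.testBit_or, Nat.testBit_two_pow]; simp
    rw [b4, Nat.testBit_or, Nat.testBit_two_pow, a3] at hb
    simp only [Bool.false_or, decide_eq_true_eq] at hb
    exact hb.symm

end Pool.Agent.H54S
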