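import Mathlib

/-!
Families of pairwise edge-disjoint symmetric chain decompositions: the abstract form
(`chain labels`), products, transport, and the translation to lists of sets.
-/

set_option autoImplicit false

namespace Pool.Agent.H54S

/-- `Fam rk E n K`: there are `K` pairwise edge-disjoint symmetric chain decompositions of the
ranked set `V` (rank function `rk`, total rank `n`, cover relation `E`). The `i`-th decomposition
is given by a label `ch i v` of the chain through `v`; `st c` is the rank of the bottom of `c`. -/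
def Fam {V : Type} (rk : V → ℕ) (E : V → V → Prop) (n K : ℕ) : Prop :=
  ∃ (C : Type) (st : C → ℕ) (ch : Fin K → V → C),
    (∀ i v w, ch i v = ch i w → rk v = rk w → v = w) ∧
    (∀ i v, st (ch i v) ≤ rk v ∧ rk v + st (ch i v) ≤ n) ∧
    (∀ i v, rk v + st (ch i v) < n → ∃ w, E v w ∧ ch i w = ch i v) ∧
    (∀ i v, st (ch i v) < rk v → ∃ w, E w v ∧ ch i w = ch i v) ∧
    (∀ i j, i ≠ j → ∀ v w, E v w → ch i v = ch i w → ch j v = ch j w → False)

/-- The cover relation of a product. -/
def PE {V W : Type} (E : V → V → Prop) (F : W → W → Prop) (p q : V × W) : Prop :=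
  (E p.1 q.1 ∧ p.2 = q.2) ∨ (p.1 = q.1 ∧ F p.2 q.2)

theorem Fam.prod {V W : Type} {rk : V → ℕ} {rk' : W → ℕ} {E : V → V → Prop} {F : W → W → Prop}
    {n m K : ℕ} (hE : ∀ v w, E v w → rk w = rk v + 1) (hF : ∀ v w, F v w → rk' w = rk' v + 1)
    (h : Fam rk E n K) (h' : Fam rk' F m K) :
    Fam (fun p : V × W => rk p.1 + rk' p.2) (PE E F) (n + m) K := by
  obtain ⟨C, st, ch, a1, a2, a3, a4, a5⟩ := h
  obtain ⟨C', st', ch', b1, b2, b3, b4, b5⟩ := h'
  refine ⟨C × C' × ℕ, fun c => c.2.2,
    fun i p => (ch i p.1, ch' i p.2,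
      min (st (ch i p.1) + rk' p.2) (st' (ch' i p.2) + (n - rk p.1))), ?_, ?_, ?_, ?_, ?_⟩
  · rintro i ⟨x, y⟩ ⟨x', y'⟩ hc hr
    simp only [Prod.mk.injEq] at hc hr
    obtain ⟨h1, h2, h3⟩ := hc
    have e1 := a2 i x
    have e2 := a2 i x'
    have e3 := b2 i y
    have e4 := b2 i y'
    rw [h1] at e1 h3
    rw [h2] at e3 h3
    have hx : rk x = rk x' := by omega
    have hy : rk' y = rk' y' := by omega
    rw [a1 i x x' h1 hx, b1 i y y' h2 hy]
  · rintro i ⟨x, y⟩
    have e1 := a2 i x
    have e3 := b2 i y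
    simp only
    omega
  · rintro i ⟨x, y⟩ hlt
    have e1 := a2 i x
    have e3 := b2 i y
    simp only at hlt
    by_cases hc : st (ch i x) + rk' y < st' (ch' i y) + (n - rk x)
    · obtain ⟨w, hw, hw'⟩ := a3 i x (by omega)
      have hr := hE _ _ hw
      refine ⟨(w, y), Or.inl ⟨hw, rfl⟩, ?_⟩
      simp only [Prod.mk.injEq]
      refine ⟨hw', trivial, ?_⟩
      rw [hw', hr]
      omega
    · obtain ⟨w, hw, hw'⟩ := b3 i y (by omega)
      have hr := hF _ _ hw
      refine ⟨(x, w), Or.inr ⟨rfl, hw⟩, ?_⟩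
      simp only [Prod.mk.injEq]
      refine ⟨trivial, hw', ?_⟩
      rw [hw', hr]
      omega
  · rintro i ⟨x, y⟩ hlt
    have e1 := a2 i x
    have e3 := b2 i y
    simp only at hlt
    by_cases hc : st (ch i x) + rk' y ≤ st' (ch' i y) + (n - rk x)
    · obtain ⟨w, hw, hw'⟩ := a4 i x (by omega)
      have hr := hE _ _ hw
      refine ⟨(w, y), Or.inl ⟨hw, rfl⟩, ?_⟩
      simp only [Prod.mk.injEq]
      refine ⟨hw', trivial, ?_⟩
      rw [hw']
      omega
    · obtain ⟨w, hw, hw'⟩ := b4 i y (by omega)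
      have hr := hF _ _ hw
      refine ⟨(x, w), Or.inr ⟨rfl, hw⟩, ?_⟩
      simp only [Prod.mk.injEq]
      refine ⟨trivial, hw', ?_⟩
      rw [hw']
      omega
  · rintro i j hij ⟨x, y⟩ ⟨x', y'⟩ hp h1 h2
    simp only [Prod.mk.injEq] at h1 h2
    rcases hp with ⟨hp, -⟩ | ⟨-, hp⟩
    · exact a5 i j hij _ _ hp h1.1 h2.1
    · exact b5 i j hij _ _ hp h1.2.1 h2.2.1

/-- Transport along a map that is bijective and respects rank and covers. -/
theorem Fam.transport {V W : Type} {rk : V → ℕ} {rk' : W → ℕ} {E : V → V → Prop}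
    {F : W → W → Prop} {n K : ℕ} (e : V ≃ W) (hr : ∀ v, rk' (e v) = rk v)
    (hE : ∀ v w, E v w ↔ F (e v) (e w)) (h : Fam rk E n K) : Fam rk' F n K := by
  obtain ⟨C, st, ch, a1, a2, a3, a4, a5⟩ := h
  have hr' : ∀ w, rk (e.symm w) = rk' w := fun w => by rw [← hr, e.apply_symm_apply]
  refine ⟨C, st, fun i w => ch i (e.symm w), ?_, ?_, ?_, ?_, ?_⟩
  · intro i v w h1 h2
    have := a1 i _ _ h1 (by rw [hr', hr', h2])
    simpa using this
  · intro i v
    have := a2 i (e.symm v)
    rwa [hr'] at this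
  · intro i v h
    obtain ⟨w, hw, hw'⟩ := a3 i (e.symm v) (by rwa [hr'])
    refine ⟨e w, ?_, by simpa using hw'⟩
    have := (hE _ _).1 hw
    simpa using this
  · intro i v h
    obtain ⟨w, hw, hw'⟩ := a4 i (e.symm v) (by rwa [hr'])
    refine ⟨e w, ?_, by simpa using hw'⟩
    have := (hE _ _).1 hw
    simpa using this
  · intro i j hij v w h h1 h2
    refine a5 i j hij (e.symm v) (e.symm w) ?_ h1 h2
    rw [hE]
    simpa using h

/-- The cover relation of the cube. -/
def CE {α : Type} (a b : Finset α) : Prop := a ⊆ b ∧ b.card = a.card + 1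

/-- `K` pairwise edge-disjoint symmetric chain decompositions of the cube on `α`. -/
def Good (α : Type) [Fintype α] (K : ℕ) : Prop :=
  Fam (fun a : Finset α => a.card) CE (Fintype.card α) K

theorem Good.congr {α β : Type} [Fintype α] [Fintype β] {K : ℕ} (e : α ≃ β)
    (h : Good α K) : Good β K := by
  unfold Good at *
  rw [← Fintype.card_congr e]
  refine Fam.transport (Equiv.finsetCongr e) ?_ ?_ h
  · intro v
    simp [Equiv.finsetCongr_apply]
  · intro v w
    simp [CE, Equiv.finsetCongr_apply]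

theorem Good.sum {α β : Type} [Fintype α] [Fintype β] {K : ℕ}
    (h : Good α K) (h' : Good β K) : Good (α ⊕ β) K := by
  classical
  have hp := Fam.prod (fun v w (h : CE v w) => h.2) (fun v w (h : CE v w) => h.2) h h'
  unfold Good
  rw [Fintype.card_sum]
  refine Fam.transport (Finset.sumEquiv (α := α) (β := β)).toEquiv.symm ?_ ?_ hp
  · rintro ⟨a, b⟩
    simp
  · rintro ⟨a, b⟩ ⟨a', b'⟩
    simp only [PE, CE]
    have hs : ∀ (a a' : Finset α) (b b' : Finset β),
        a.disjSum b ⊆ a'.disjSum b' ↔ a ⊆ a' ∧ b ⊆ b' := by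
      intro a a' b b'
      constructor
      · intro h
        refine ⟨fun x hx => ?_, fun x hx => ?_⟩
        · have := h (Finset.inl_mem_disjSum.2 hx)
          exact Finset.inl_mem_disjSum.1 this
        · have := h (Finset.inr_mem_disjSum.2 hx)
          exact Finset.inr_mem_disjSum.1 this
      · rintro ⟨h1, h2⟩
        exact Finset.disjSum_mono h1 h2
    show _ ↔ (a.disjSum b ⊆ a'.disjSum b' ∧ (a'.disjSum b').card = (a.disjSum b).card + 1)
    rw [hs, Finset.card_disjSum, Finset.card_disjSum]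
    constructor
    · rintro (⟨⟨h1, h2⟩, rfl⟩ | ⟨rfl, h1, h2⟩)
      · exact ⟨⟨h1, Finset.Subset.refl _⟩, by omega⟩
      · exact ⟨⟨Finset.Subset.refl _, h1⟩, by omega⟩
    · rintro ⟨⟨h1, h2⟩, h3⟩
      have c1 := Finset.card_le_card h1
      have c2 := Finset.card_le_card h2
      by_cases hb : b'.card = b.card
      · left
        exact ⟨⟨h1, by omega⟩, Finset.eq_of_subset_of_card_le h2 (by omega)⟩
      · right
        exact ⟨Finset.eq_of_subset_of_card_le h1 (by omega), h2, by omega⟩

theorem Good.fin_add {a b K : ℕ} (h : Good (Fin a) K) (h' : Good (Fin b) K) :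
    Good (Fin (a + b)) K :=
  Good.congr finSumFinEquiv (h.sum h')

theorem Good.mul {c K : ℕ} (hc : Good (Fin c) K) : ∀ k, 0 < k → Good (Fin (k * c)) K := by
  intro k
  induction k with
  | zero => intro h0; omega
  | succ k ih =>
    intro _
    rcases Nat.eq_zero_or_pos k with rfl | hk
    · rw [Nat.zero_add, one_mul]; exact hc
    · rw [Nat.succ_mul]
      exact (ih hk).fin_add hc

/-- All positive combinations of two good dimensions are good. -/
theorem Good.comb {a b K : ℕ} (h : Good (Fin a) K) (h' : Good (Fin b) K) {x y : ℕ}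
    (hxy : 0 < x + y) : Good (Fin (x * a + y * b)) K := by
  rcases Nat.eq_zero_or_pos x with rfl | hx
  · rw [zero_mul, zero_add]; exact h'.mul y (by omega)
  · rcases Nat.eq_zero_or_pos y with rfl | hy
    · rw [zero_mul, add_zero]; exact h.mul x hx
    · exact (h.mul x hx).fin_add (h'.mul y hy)

/-- If `a` and `b` are coprime, everything from `(a-1)(b-1)` on is representable. -/
theorem Good.large {a b K : ℕ} (ha : 1 < a) (hb : 1 < b) (hab : Nat.Coprime a b)
    (h : Good (Fin a) K) (h' : Good (Fin b) K) {n : ℕ} (hn : (a - 1) * (b - 1) ≤ n)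
    (hn0 : 0 < n) : Good (Fin n) K := by
  have hmul : ∀ (c : ℕ), Good (Fin c) K → ∀ k, 0 < k → Good (Fin (k * c)) K := by
    intro c hc k
    induction k with
    | zero => intro h0; omega
    | succ k ih =>
      intro _
      rcases Nat.eq_zero_or_pos k with rfl | hk
      · rw [Nat.zero_add, one_mul]; exact hc
      · rw [Nat.succ_mul]
        exact (ih hk).fin_add hc
  obtain ⟨x, y, hxy⟩ : ∃ x y : ℕ, x * a + y * b = n := by
    have hF := (frobeniusNumber_pair hab ha hb)
    have := hF.2
    by_contra hcon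
    have hmem : n ∈ {k | k ∉ AddSubmonoid.closure ({a, b} : Set ℕ)} := by
      intro hc
      apply hcon
      rw [AddSubmonoid.mem_closure_pair] at hc
      obtain ⟨x, y, hxy⟩ := hc
      exact ⟨x, y, by simpa using hxy⟩
    have hle := this hmem
    obtain ⟨a, rfl⟩ : ∃ a', a = a' + 2 := ⟨a - 2, by omega⟩
    obtain ⟨b, rfl⟩ : ∃ b', b = b' + 2 := ⟨b - 2, by omega⟩
    have e1 : (a + 2) * (b + 2) = a * b + 2 * a + 2 * b + 4 := by ring
    have e2 : (a + 2 - 1) * (b + 2 - 1) = a * b + a + b + 1 := by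
      show (a + 1) * (b + 1) = _
      ring
    rw [e1] at hle
    rw [e2] at hn
    omega
  rcases Nat.eq_zero_or_pos x with rfl | hx
  · rcases Nat.eq_zero_or_pos y with rfl | hy
    · simp at hxy; omega
    · have := hmul b h' y hy
      simp only [zero_mul, zero_add] at hxy
      rwa [hxy] at this
  · rcases Nat.eq_zero_or_pos y with rfl | hy
    · have := hmul a h x hx
      simp only [zero_mul, add_zero] at hxy
      rwa [hxy] at this
    · have := (hmul a h x hx).fin_add (hmul b h' y hy)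
      rwa [hxy] at this

end Pool.Agent.H54S
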