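import Pool.Agent.H54S.Lists

set_option autoImplicit false

namespace Pool.Agent.H54S

/-- Sums of `k` good dimensions. -/
theorem interval {a b K : ℕ} (hab : a ≤ b) (h : ∀ m, a ≤ m → m ≤ b → Good (Fin m) K) :
    ∀ k, 0 < k → ∀ n, k * a ≤ n → n ≤ k * b → Good (Fin n) K := by
  intro k
  induction k with
  | zero => intro h0; omega
  | succ k ih =>
    intro _ n h1 h2
    rcases Nat.eq_zero_or_pos k with rfl | hk
    · exact h n (by omega) (by omega)
    · rw [Nat.succ_mul] at h1 h2
      have hkab : k * a ≤ k * b := Nat.mul_le_mul_left k hab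
      obtain ⟨m, hm1, hm2, hm3, hm4⟩ : ∃ m, a ≤ m ∧ m ≤ b ∧ k * a + m ≤ n ∧ n ≤ k * b + m := by
        by_cases hc : n ≤ k * b + a
        · exact ⟨a, le_refl _, hab, by omega, hc⟩
        · exact ⟨n - k * b, by omega, by omega, by omega, by omega⟩
      have e : n = (n - m) + m := by omega
      rw [e]
      exact (ih hk (n - m) (by omega) (by omega)).fin_add (h m hm1 hm2)

end Pool.Agent.H54S
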