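import Pool.Agent.H54S.Fam

/-! From labels to lists of sets (the form of the problem file). -/

set_option autoImplicit false

namespace Pool.Agent.H54S

theorem infix_range {α : Type} (f : ℕ → α) (m : ℕ) (a b : α)
    (h : List.IsInfix [a, b] ((List.range m).map f)) :
    ∃ t, t + 1 < m ∧ a = f t ∧ b = f (t + 1) := by
  obtain ⟨l1, l2, hl⟩ := h
  have hlen : l1.length + 2 + l2.length = m := by
    have := congrArg List.length hl
    simp only [List.length_append, List.length_cons, List.length_nil, List.length_map,
      List.length_range] at this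
    omega
  refine ⟨l1.length, by omega, ?_, ?_⟩
  · have h1 : (l1 ++ [a, b] ++ l2)[l1.length]? = some a := by simp
    rw [hl] at h1
    rw [List.getElem?_map, List.getElem?_range (by omega)] at h1
    simpa using h1.symm
  · have h1 : (l1 ++ [a, b] ++ l2)[l1.length + 1]? = some b := by
      simp [List.getElem?_append]
    rw [hl] at h1
    rw [List.getElem?_map, List.getElem?_range (by omega)] at h1
    simpa using h1.symm

/-- `K` pairwise edge-disjoint symmetric chain decompositions of the `n`-cube, in the words of the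
problem file (`D i` is a set of lists of subsets: symmetric saturated chains covering each subset
exactly once; no cover pair is consecutive in a chain of two of the decompositions). -/
def DisjointSCDs (n K : ℕ) : Prop :=
  ∃ D : Fin K → Set (List (Finset (Fin n))),
      (∀ i : Fin K,
        (∀ c ∈ D i,
          (∃ a b : Finset (Fin n), c.head? = some a ∧ c.getLast? = some b ∧
              a.card + b.card = n) ∧
          (∀ a b : Finset (Fin n), List.IsInfix [a, b] c →
              a ⊆ b ∧ b.card = a.card + 1)) ∧
        (∀ S : Finset (Fin n), ∃! c : List (Finset (Fin n)), c ∈ D i ∧ S ∈ c)) ∧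
      (∀ i j : Fin K, i ≠ j →
        ∀ c ∈ D i, ∀ c' ∈ D j, ∀ a b : Finset (Fin n),
          List.IsInfix [a, b] c → List.IsInfix [a, b] c' → False)

theorem DisjointSCDs.of_good {n K : ℕ} (h : Good (Fin n) K) : DisjointSCDs n K := by
  classical
  unfold Good at h
  rw [Fintype.card_fin] at h
  obtain ⟨C, st, ch, a1, a2, a3, a4, a5⟩ := h
  have ups : ∀ (i : Fin K) (v : Finset (Fin n)) (k : ℕ), v.card + k + st (ch i v) ≤ n →
      ∃ w, ch i w = ch i v ∧ w.card = v.card + k := by
    intro i v k
    induction k with
    | zero => intro _; exact ⟨v, rfl, rfl⟩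
    | succ k ih =>
      intro hk
      obtain ⟨w, hw, hw'⟩ := ih (by omega)
      obtain ⟨w2, g1, g2⟩ := a3 i w (by rw [hw]; simp only; omega)
      exact ⟨w2, by rw [g2, hw], by rw [g1.2, hw']; omega⟩
  have downs : ∀ (i : Fin K) (v : Finset (Fin n)) (k : ℕ), st (ch i v) + k ≤ v.card →
      ∃ w, ch i w = ch i v ∧ w.card + k = v.card := by
    intro i v k
    induction k with
    | zero => intro _; exact ⟨v, rfl, rfl⟩
    | succ k ih =>
      intro hk
      obtain ⟨w, hw, hw'⟩ := ih (by omega)
      obtain ⟨w2, g1, g2⟩ := a4 i w (by rw [hw]; simp only; omega)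
      exact ⟨w2, by rw [g2, hw], by have := g1.2; omega⟩
  have ex : ∀ (i : Fin K) (v : Finset (Fin n)) (r : ℕ), st (ch i v) ≤ r → r + st (ch i v) ≤ n →
      ∃ w, ch i w = ch i v ∧ w.card = r := by
    intro i v r h1 h2
    have h3 := a2 i v
    simp only at h3
    rcases le_total v.card r with hr | hr
    · obtain ⟨w, hw, hw'⟩ := ups i v (r - v.card) (by omega)
      exact ⟨w, hw, by omega⟩
    · obtain ⟨w, hw, hw'⟩ := downs i v (v.card - r) (by omega)
      exact ⟨w, hw, by omega⟩
  let el : Fin K → C → ℕ → Finset (Fin n) := fun i γ r =>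
    if h : ∃ w, ch i w = γ ∧ w.card = r then h.choose else ∅
  have el_spec : ∀ (i : Fin K) (v : Finset (Fin n)) (r : ℕ), st (ch i v) ≤ r →
      r + st (ch i v) ≤ n → ch i (el i (ch i v) r) = ch i v ∧ (el i (ch i v) r).card = r := by
    intro i v r h1 h2
    have := ex i v r h1 h2
    simp only [el]
    rw [dif_pos this]
    exact this.choose_spec
  have el_self : ∀ (i : Fin K) (v : Finset (Fin n)), el i (ch i v) v.card = v := by
    intro i v
    have h3 := a2 i v
    simp only at h3
    have := el_spec i v v.card h3.1 h3.2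
    exact a1 i _ _ this.1 this.2
  let L : Fin K → C → List (Finset (Fin n)) := fun i γ =>
    (List.range (n + 1 - 2 * st γ)).map (fun t => el i γ (st γ + t))
  have inL : ∀ (i : Fin K) (v : Finset (Fin n)) (S : Finset (Fin n)),
      S ∈ L i (ch i v) → ch i S = ch i v := by
    intro i v S hS
    simp only [L, List.mem_map, List.mem_range] at hS
    obtain ⟨t, ht, rfl⟩ := hS
    have h3 := a2 i v
    simp only at h3
    exact (el_spec i v _ (by omega) (by omega)).1
  have edge : ∀ (i : Fin K) (v a b : Finset (Fin n)), List.IsInfix [a, b] (L i (ch i v)) →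
      CE a b ∧ ch i a = ch i v ∧ ch i b = ch i v := by
    intro i v a b hab
    obtain ⟨t, ht, rfl, rfl⟩ := infix_range _ _ _ _ hab
    have h3 := a2 i v
    simp only at h3
    have e1 := el_spec i v (st (ch i v) + t) (by omega) (by omega)
    have e2 := el_spec i v (st (ch i v) + (t + 1)) (by omega) (by omega)
    refine ⟨?_, e1.1, e2.1⟩
    obtain ⟨w, g1, g2⟩ := a3 i (el i (ch i v) (st (ch i v) + t))
      (by rw [e1.1]; simp only; rw [e1.2]; omega)
    have : w = el i (ch i v) (st (ch i v) + (t + 1)) := by
      refine a1 i _ _ (by rw [g2, e1.1, e2.1]) ?_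
      simp only
      rw [g1.2, e1.2, e2.2]
      omega
    rw [← this]
    exact g1
  refine ⟨fun i => {c | ∃ v, c = L i (ch i v)}, ?_, ?_⟩
  · intro i
    refine ⟨?_, ?_⟩
    · rintro c ⟨v, rfl⟩
      have h3 := a2 i v
      simp only at h3
      refine ⟨?_, ?_⟩
      · refine ⟨el i (ch i v) (st (ch i v)), el i (ch i v) (n - st (ch i v)), ?_, ?_, ?_⟩
        · obtain ⟨m, hm⟩ : ∃ m, n + 1 - 2 * st (ch i v) = m + 1 :=
            ⟨n - 2 * st (ch i v), by omega⟩
          simp only [L]
          rw [hm, List.range_succ_eq_map]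
          simp
        · obtain ⟨m, hm⟩ : ∃ m, n + 1 - 2 * st (ch i v) = m + 1 :=
            ⟨n - 2 * st (ch i v), by omega⟩
          simp only [L]
          rw [hm, List.range_succ, List.map_append]
          have : st (ch i v) + m = n - st (ch i v) := by omega
          simp [this]
        · rw [(el_spec i v _ (le_refl _) (by omega)).2, (el_spec i v _ (by omega) (by omega)).2]
          omega
      · intro a b hab
        exact (edge i v a b hab).1
    · intro S
      refine ⟨L i (ch i S), ⟨⟨S, rfl⟩, ?_⟩, ?_⟩
      · have h3 := a2 i S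
        simp only at h3
        simp only [L, List.mem_map, List.mem_range]
        refine ⟨S.card - st (ch i S), by omega, ?_⟩
        rw [Nat.add_sub_cancel' h3.1]
        exact el_self i S
      · rintro c ⟨⟨v, rfl⟩, hS⟩
        rw [inL i v S hS]
  · rintro i j hij c ⟨v, rfl⟩ c' ⟨v', rfl⟩ a b h1 h2
    have e1 := edge i v a b h1
    have e2 := edge j v' a b h2
    exact a5 i j hij a b e1.1 (by rw [e1.2.1, e1.2.2]) (by rw [e2.2.1, e2.2.2])

end Pool.Agent.H54S
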