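import Pool.Agent.H54S.Bits

/-!
Certificates with a symmetry: the seven decompositions are the images of one decomposition under
the powers of a product of 7-cycles of the coordinates.
-/

set_option autoImplicit false

namespace Pool.Agent.H54S

/-- One decomposition, edge-disjoint from its images under the powers of an automorphism of
order `q`, gives `q` pairwise edge-disjoint decompositions. -/
theorem Fam.sym {V : Type} {rk : V → ℕ} {E : V → V → Prop} {n q : ℕ} {C : Type} (st : C → ℕ)
    (ch : V → C)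
    (a1 : ∀ v w, ch v = ch w → rk v = rk w → v = w)
    (a2 : ∀ v, st (ch v) ≤ rk v ∧ rk v + st (ch v) ≤ n)
    (a3 : ∀ v, rk v + st (ch v) < n → ∃ w, E v w ∧ ch w = ch v)
    (a4 : ∀ v, st (ch v) < rk v → ∃ w, E w v ∧ ch w = ch v)
    (R : V → V) (hR : ∀ v, R^[q] v = v) (hrk : ∀ v, rk (R v) = rk v)
    (hE : ∀ v w, E v w → E (R v) (R w))
    (hd : ∀ d, 0 < d → 2 * d ≤ q → ∀ v w, E v w → ch v = ch w → ch (R^[d] v) = ch (R^[d] w) →
      False) : Fam rk E n q := by
  have hrk' : ∀ (i : ℕ) v, rk (R^[i] v) = rk v := by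
    intro i
    induction i with
    | zero => intro v; rfl
    | succ i ih => intro v; rw [Function.iterate_succ_apply', hrk, ih]
  have hE' : ∀ (i : ℕ) v w, E v w → E (R^[i] v) (R^[i] w) := by
    intro i
    induction i with
    | zero => intro v w h; exact h
    | succ i ih =>
      intro v w h
      rw [Function.iterate_succ_apply', Function.iterate_succ_apply']
      exact hE _ _ (ih v w h)
  have back : ∀ (i : ℕ), i ≤ q → ∀ v, R^[i] (R^[q - i] v) = v := by
    intro i hi v
    rw [← Function.iterate_add_apply, Nat.add_sub_cancel' hi, hR]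
  have back' : ∀ (i : ℕ), i ≤ q → ∀ v, R^[q - i] (R^[i] v) = v := by
    intro i hi v
    rw [← Function.iterate_add_apply, Nat.sub_add_cancel hi, hR]
  have hd' : ∀ d, 0 < d → d < q → ∀ v w, E v w → ch v = ch w → ch (R^[d] v) = ch (R^[d] w) →
      False := by
    intro d h1 h2 v w h3 h4 h5
    by_cases h6 : 2 * d ≤ q
    · exact hd d h1 h6 v w h3 h4 h5
    · refine hd (q - d) (by omega) (by omega) _ _ (hE' d v w h3) h5 ?_
      rw [back' d h2.le, back' d h2.le]
      exact h4
  refine ⟨C, st, fun i v => ch (R^[i] v), ?_, ?_, ?_, ?_, ?_⟩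
  · intro i v w h1 h2
    have h3 := a1 _ _ h1 (by rw [hrk', hrk', h2])
    have h4 := congrArg (fun z => R^[q - i] z) h3
    simpa only [back' i i.2.le] using h4
  · intro i v
    have := a2 (R^[i] v)
    rwa [hrk'] at this
  · intro i v h
    obtain ⟨w, g1, g2⟩ := a3 (R^[i] v) (by rwa [hrk'])
    refine ⟨R^[q - i] w, ?_, by simp only [back i i.2.le]; exact g2⟩
    have := hE' (q - i) _ _ g1
    rwa [back' i i.2.le] at this
  · intro i v h
    obtain ⟨w, g1, g2⟩ := a4 (R^[i] v) (by rwa [hrk'])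
    refine ⟨R^[q - i] w, ?_, by simp only [back i i.2.le]; exact g2⟩
    have := hE' (q - i) _ _ g1
    rwa [back' i i.2.le] at this
  · have key : ∀ i j : Fin q, i < j → ∀ v w, E v w → ch (R^[i] v) = ch (R^[i] w) →
        ch (R^[j] v) = ch (R^[j] w) → False := by
      intro i j hij v w h1 h2 h3
      have hj : (j : ℕ) = (j - i : ℕ) + i := by
        have : (i : ℕ) < j := hij
        omega
      have hlt : (i : ℕ) < j := hij
      rw [hj, Function.iterate_add_apply, Function.iterate_add_apply] at h3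
      exact hd' (j - i) (by omega) (by have := j.2; omega) _ _ (hE' i v w h1) h2 h3
    intro i j hij v w h1 h2 h3
    rcases lt_or_gt_of_ne hij with h | h
    · exact key i j h v w h1 h2 h3
    · exact key j i h v w h1 h3 h2

/-- rotation of a block of seven bits -/
def rotB (m : ℕ) : ℕ := (m * 2) % 128 + m / 64

/-- rotation of the lowest `k` blocks of seven bits -/
def rotA : ℕ → ℕ → ℕ
  | 0, v => v
  | k + 1, v => 128 * rotA k (v / 128) + rotB (v % 128)

/-- the corresponding permutation of the positions -/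
def rho : ℕ → ℕ → ℕ
  | 0, x => x
  | k + 1, x => bif Nat.blt x 7 then (x + 1) % 7 else 7 + rho k (x - 7)

theorem rho_small (k x : ℕ) (h : x < 7) : rho (k + 1) x = (x + 1) % 7 := by
  show (bif Nat.blt x 7 then (x + 1) % 7 else 7 + rho k (x - 7)) = _
  rw [Eq.mpr Nat.blt_eq h]
  rfl

theorem rho_big (k x : ℕ) (h : 7 ≤ x) : rho (k + 1) x = 7 + rho k (x - 7) := by
  show (bif Nat.blt x 7 then (x + 1) % 7 else 7 + rho k (x - 7)) = _
  have : Nat.blt x 7 = false := by
    rw [← Bool.not_eq_true, Nat.blt_eq]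
    omega
  rw [this]
  rfl

theorem rho_fix (k : ℕ) : ∀ x, 7 * k ≤ x → rho k x = x := by
  induction k with
  | zero => intro x _; rfl
  | succ k ih =>
    intro x hx
    rw [rho_big k x (by omega), ih (x - 7) (by omega)]
    omega

theorem rho_lt (k : ℕ) : ∀ x, x < 7 * k → rho k x < 7 * k := by
  induction k with
  | zero => intro x hx; omega
  | succ k ih =>
    intro x hx
    by_cases h : x < 7
    · rw [rho_small k x h]
      have := Nat.mod_lt (x + 1) (show 0 < 7 by norm_num)
      omega
    · rw [rho_big k x (by omega)]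
      have := ih (x - 7) (by omega)
      omega

theorem rho_seven (k : ℕ) : ∀ x, (rho k)^[7] x = x := by
  induction k with
  | zero => intro x; rfl
  | succ k ih =>
    intro x
    by_cases h : x < 7
    · have e : ∀ y, y < 7 → rho (k + 1) y = (y + 1) % 7 := rho_small k
      show rho (k + 1) (rho (k + 1) (rho (k + 1) (rho (k + 1) (rho (k + 1) (rho (k + 1)
        (rho (k + 1) x)))))) = x
      rw [e x h]
      have m : ∀ a, a % 7 < 7 := fun a => Nat.mod_lt _ (by norm_num)
      rw [e _ (m _), e _ (m _), e _ (m _), e _ (m _), e _ (m _), e _ (m _)]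
      omega
    · have it : ∀ (i : ℕ), (rho (k + 1))^[i] x = 7 + (rho k)^[i] (x - 7) := by
        intro i
        induction i with
        | zero => simp; omega
        | succ i ih2 =>
          rw [Function.iterate_succ_apply', Function.iterate_succ_apply', ih2,
            rho_big k _ (by omega)]
          congr 2
          omega
      rw [it 7, ih (x - 7)]
      omega

theorem rotB_spec : ∀ m < 128, ∀ x < 7, (rotB m).testBit ((x + 1) % 7) = m.testBit x := by
  decide +kernel

theorem rotB_lt : ∀ m < 128, rotB m < 128 := by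
  decide +kernel

theorem rotA_spec (k : ℕ) : ∀ v x, (rotA k v).testBit (rho k x) = v.testBit x := by
  induction k with
  | zero => intro v x; rfl
  | succ k ih =>
    intro v x
    have hm : v % 2 ^ 7 < 128 := Nat.mod_lt _ (by norm_num)
    have hb : rotB (v % 2 ^ 7) < 2 ^ 7 := rotB_lt _ hm
    show (2 ^ 7 * rotA k (v / 2 ^ 7) + rotB (v % 2 ^ 7)).testBit _ = _
    rw [Nat.testBit_two_pow_mul_add _ hb]
    by_cases h : x < 7
    · rw [rho_small k x h, if_pos (Nat.mod_lt _ (by norm_num)),
        rotB_spec (v % 2 ^ 7) hm x h, Nat.testBit_mod_two_pow]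
      simp [h]
    · rw [rho_big k x (by omega), if_neg (by omega), Nat.add_sub_cancel_left, ih,
        Nat.testBit_div_two_pow]
      congr 1
      omega

theorem rotA_spec_iter (k i : ℕ) : ∀ v x,
    ((rotA k)^[i] v).testBit ((rho k)^[i] x) = v.testBit x := by
  induction i with
  | zero => intro v x; rfl
  | succ i ih =>
    intro v x
    rw [Function.iterate_succ_apply', Function.iterate_succ_apply', rotA_spec, ih]

theorem rotA_seven (k v : ℕ) : (rotA k)^[7] v = v := by
  apply Nat.eq_of_testBit_eq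
  intro x
  have := rotA_spec_iter k 7 v x
  rwa [rho_seven] at this

theorem rotA_lt (k n v : ℕ) (hk : 7 * k ≤ n) (hv : v < 2 ^ n) : rotA k v < 2 ^ n := by
  apply Nat.lt_pow_two_of_testBit
  intro i hi
  have := rotA_spec k v i
  rw [rho_fix k i (by omega)] at this
  rw [this]
  exact Nat.testBit_lt_two_pow (lt_of_lt_of_le hv (Nat.pow_le_pow_right (by norm_num) hi))

/-- the permutation of `Fin n` -/
def rhoF (k n : ℕ) (hk : 7 * k ≤ n) (x : Fin n) : Fin n :=
  ⟨rho k x, by
    by_cases h : (x : ℕ) < 7 * k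
    · have := rho_lt k x h
      omega
    · rw [rho_fix k x (by omega)]
      exact x.2⟩

theorem rhoF_inj (k n : ℕ) (hk : 7 * k ≤ n) : Function.Injective (rhoF k n hk) := by
  intro x y h
  have h' : rho k x = rho k y := congrArg Fin.val h
  apply Fin.ext
  have e1 := rho_seven k x
  have e2 := rho_seven k y
  rw [Function.iterate_succ_apply] at e1 e2
  rw [← e1, ← e2, h']

theorem ms_rotA (k n v : ℕ) (hk : 7 * k ≤ n) :
    ms n (rotA k v) = (ms n v).map ⟨rhoF k n hk, rhoF_inj k n hk⟩ := by
  ext y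
  rw [mem_ms, Finset.mem_map]
  constructor
  · intro h
    have hsurj := Finite.surjective_of_injective (rhoF_inj k n hk)
    obtain ⟨x, hx⟩ := hsurj y
    refine ⟨x, ?_, hx⟩
    rw [mem_ms, ← rotA_spec k v x]
    have : rho k x = (y : ℕ) := congrArg Fin.val hx
    rw [this]
    exact h
  · rintro ⟨x, hx, rfl⟩
    rw [mem_ms] at hx
    show (rotA k v).testBit (rho k x) = true
    rw [rotA_spec, hx]

/-- disjointness from one image, at one vertex -/
def chkd (n W D v p w x : ℕ) : Bool :=
  (bif Nat.blt (p + ent W D v / 256 / 2 ^ n) n then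
    (bif Nat.blt (p + ent W D w / 256 / 2 ^ n) n then
      !(Nat.beq (ent W D w / 16 % 16) x) else true) else true)

/-- all conditions at one vertex -/
def chkS (n W D k v p : ℕ) : Bool :=
  chk1 n W D v p &&
  (chkd n W D v p (rotA k v) (rho k (ent W D v / 16 % 16)) &&
   (chkd n W D v p (rotA k (rotA k v)) (rho k (rho k (ent W D v / 16 % 16))) &&
    chkd n W D v p (rotA k (rotA k (rotA k v))) (rho k (rho k (rho k (ent W D v / 16 % 16))))))

/-- a block of 64 vertices -/
def blk (n W D k a : ℕ) : Bool :=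
  loop (fun b => chkS n W D k (a * 64 + b) (pc n (a * 64 + b))) 64

/-- the blocks number `lo, ..., lo + cnt - 1` -/
def chkR (n W D k lo cnt : ℕ) : Bool := loop (fun a => blk n W D k (lo + a)) cnt

theorem chkR_spec {n W D k lo cnt : ℕ} (h : chkR n W D k lo cnt = true) (a : ℕ) (h1 : lo ≤ a)
    (h2 : a < lo + cnt) : blk n W D k a = true := by
  have := loop_spec _ _ h (a - lo) (by omega)
  rwa [Nat.add_sub_cancel' h1] at this

theorem good_of_chkSym {n W D k B : ℕ} (hk : 7 * k ≤ n) (hB : 2 ^ n = B * 64)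
    (h : ∀ a < B, blk n W D k a = true) : Good (Fin n) 7 := by
  have hS : ∀ v < 2 ^ n, chkS n W D k v (pc n v) = true := by
    intro v hv
    have h1 := h (v / 64) (by omega)
    have h2 := loop_spec _ _ h1 (v % 64) (by omega)
    have e : v / 64 * 64 + v % 64 = v := by omega
    rw [e] at h2
    exact h2
  set F : ℕ → ℕ := fun v => ent W D v / 256 with hF
  set U : ℕ → ℕ := fun v => ent W D v / 16 % 16 with hU
  have P : ∀ (v : ℕ), v < 2 ^ n →
      (F v / 2 ^ n ≤ pc n v ∧ pc n v + F v / 2 ^ n ≤ n) ∧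
      (F v / 2 ^ n = pc n v → F v % 2 ^ n = v) ∧
      (F v / 2 ^ n < pc n v → ∃ x < n, v.testBit x = true ∧ F (v ^^^ 2 ^ x) = F v ∧
        U (v ^^^ 2 ^ x) = x) ∧
      (pc n v + F v / 2 ^ n < n → U v < n ∧ v.testBit (U v) = false ∧
        F (v ||| 2 ^ (U v)) = F v) := by
    intro v hv
    have h0 := hS v hv
    unfold chkS at h0
    rw [Bool.and_eq_true] at h0
    have h1 := h0.1
    unfold chk1 at h1
    simp only [Bool.and_eq_true, Nat.ble_eq] at h1
    obtain ⟨h2, h3, h4, h5⟩ := h1
    refine ⟨⟨h2, h3⟩, ?_, ?_, ?_⟩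
    · intro he
      have he' : Nat.beq (ent W D v / 256 / 2 ^ n) (pc n v) = true := by
        rw [Nat.beq_eq]; exact he
      rw [he'] at h4
      simp only [cond_true] at h4
      exact Nat.eq_of_beq_eq_true h4
    · intro he
      have he' : Nat.beq (ent W D v / 256 / 2 ^ n) (pc n v) = false := by
        rw [← Bool.not_eq_true, Nat.beq_eq]
        exact Nat.ne_of_lt he
      rw [he'] at h4
      simp only [cond_false, Bool.and_eq_true] at h4
      obtain ⟨g1, g2, g3, g4⟩ := h4
      refine ⟨ent W D v % 16, ?_, g2, Nat.eq_of_beq_eq_true g3, Nat.eq_of_beq_eq_true g4⟩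
      exact Eq.mp Nat.blt_eq g1
    · intro he
      have he' : Nat.blt (pc n v + ent W D v / 256 / 2 ^ n) n = true := Eq.mpr Nat.blt_eq he
      rw [he'] at h5
      simp only [cond_true, Bool.and_eq_true] at h5
      obtain ⟨g1, g2, g3⟩ := h5
      refine ⟨Eq.mp Nat.blt_eq g1, ?_, Nat.eq_of_beq_eq_true g3⟩
      simpa using g2
  have chkd_spec : ∀ v w x p, chkd n W D v p w x = true → p + F v / 2 ^ n < n →
      p + F w / 2 ^ n < n → U w ≠ x := by
    intro v w x p h h1 h2 he
    unfold chkd at h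
    have e1 : Nat.blt (p + ent W D v / 256 / 2 ^ n) n = true := Eq.mpr Nat.blt_eq h1
    have e2 : Nat.blt (p + ent W D w / 256 / 2 ^ n) n = true := Eq.mpr Nat.blt_eq h2
    have e3 : Nat.beq (ent W D w / 16 % 16) x = true := by
      rw [Nat.beq_eq]; exact he
    rw [e1, e2, e3] at h
    simp at h
  have Q : ∀ d, 0 < d → d ≤ 3 → ∀ v < 2 ^ n, pc n v + F v / 2 ^ n < n →
      pc n v + F ((rotA k)^[d] v) / 2 ^ n < n → U ((rotA k)^[d] v) ≠ (rho k)^[d] (U v) := by
    intro d hd0 hd3 v hv h1 h2
    have h0 := hS v hv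
    unfold chkS at h0
    simp only [Bool.and_eq_true] at h0
    obtain ⟨-, c1, c2, c3⟩ := h0
    rcases (show d = 1 ∨ d = 2 ∨ d = 3 by omega) with rfl | rfl | rfl
    · exact chkd_spec _ _ _ _ c1 h1 h2
    · exact chkd_spec _ _ _ _ c2 h1 h2
    · exact chkd_spec _ _ _ _ c3 h1 h2
  clear hS
  have hxl : ∀ v x, v < 2 ^ n → x < n → v ^^^ 2 ^ x < 2 ^ n := fun v x hv hx =>
    Nat.xor_lt_two_pow hv (Nat.pow_lt_pow_right (by norm_num) hx)
  have hol : ∀ v x, v < 2 ^ n → x < n → v ||| 2 ^ x < 2 ^ n := fun v x hv hx =>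
    Nat.or_lt_two_pow hv (Nat.pow_lt_pow_right (by norm_num) hx)
  have hpc : ∀ v x, x < n → v.testBit x = true → pc n v = pc n (v ^^^ 2 ^ x) + 1 := by
    intro v x hx hv
    obtain ⟨e1, e2⟩ := xor_or hv
    have := (CE_or hx e2).2
    rw [e1, card_ms, card_ms] at this
    exact this
  have inj : ∀ (r v w : ℕ), v < 2 ^ n → w < 2 ^ n → F v = F w →
      pc n v = pc n w → pc n v - F v / 2 ^ n = r → v = w := by
    intro r
    induction r with
    | zero =>
      intro v w hv hw h1 h2 h3
      obtain ⟨p1, p1', -, -⟩ := P v hv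
      obtain ⟨-, p2', -, -⟩ := P w hw
      have e1 : F v / 2 ^ n = pc n v := by
        clear p1' p2'
        omega
      have e2 : F w / 2 ^ n = pc n w := by rw [← h1, ← h2]; exact e1
      rw [← p1' e1, ← p2' e2, h1]
    | succ r ih =>
      intro v w hv hw h1 h2 h3
      have e1 : F v / 2 ^ n < pc n v := by
        clear ih
        omega
      have e2 : F w / 2 ^ n < pc n w := by
        rw [← h1, ← h2]
        exact e1
      obtain ⟨x, hx, hxv, hx1, hx2⟩ := (P v hv).2.2.1 e1
      obtain ⟨y, hy, hyv, hy1, hy2⟩ := (P w hw).2.2.1 e2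
      have c1 := hpc v x hx hxv
      have c2 := hpc w y hy hyv
      have c3 : pc n (v ^^^ 2 ^ x) = pc n (w ^^^ 2 ^ y) := by
        clear ih
        omega
      have c4 : pc n (v ^^^ 2 ^ x) - F (v ^^^ 2 ^ x) / 2 ^ n = r := by
        rw [hx1]
        clear ih
        omega
      have e := ih (v ^^^ 2 ^ x) (w ^^^ 2 ^ y) (hxl v x hv hx) (hxl w y hw hy)
        (by rw [hx1, hy1, h1]) c3 c4
      have hxy : x = y := by rw [← hx2, ← hy2, e]
      subst hxy
      rw [← (xor_or hxv).1, ← (xor_or hyv).1, e]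
  have hRl : ∀ v, v < 2 ^ n → rotA k v < 2 ^ n := fun v hv => rotA_lt k n v hk hv
  have hRi : ∀ d v, v < 2 ^ n → (rotA k)^[d] v < 2 ^ n := by
    intro d
    induction d with
    | zero => intro v hv; exact hv
    | succ d ih =>
      intro v hv
      rw [Function.iterate_succ_apply']
      exact hRl _ (ih v hv)
  have hcar : ∀ v, pc n (rotA k v) = pc n v := by
    intro v
    rw [← card_ms, ← card_ms, ms_rotA k n v hk, Finset.card_map]
  have hcari : ∀ d v, pc n ((rotA k)^[d] v) = pc n v := by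
    intro d
    induction d with
    | zero => intro v; rfl
    | succ d ih => intro v; rw [Function.iterate_succ_apply', hcar, ih]
  refine Fam.transport (V := Fin (2 ^ n)) (rk := fun v => (ms n v).card)
    (E := fun v w => CE (ms n v) (ms n w)) (msEquiv n) (fun v => rfl) (fun v w => Iff.rfl) ?_
  rw [Fintype.card_fin]
  have hval : ∀ (d : ℕ) (v : Fin (2 ^ n)),
      (((fun v : Fin (2 ^ n) => (⟨rotA k v, hRl v v.2⟩ : Fin (2 ^ n)))^[d] v : Fin (2 ^ n)) : ℕ) =
        (rotA k)^[d] (v : ℕ) := by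
    intro d
    induction d with
    | zero => intro v; rfl
    | succ d ih => intro v; rw [Function.iterate_succ_apply', Function.iterate_succ_apply', ← ih]
  refine Fam.sym (C := ℕ) (st := fun c => c / 2 ^ n) (ch := fun v => F v) ?_ ?_ ?_ ?_
    (fun v => ⟨rotA k v, hRl v v.2⟩) ?_ ?_ ?_ ?_
  · intro v w h1 h2
    simp only [card_ms] at h2
    exact Fin.ext (inj _ v w v.2 w.2 h1 h2 rfl)
  · intro v
    simp only [card_ms]
    exact (P v v.2).1
  · intro v hlt
    simp only [card_ms] at hlt
    obtain ⟨g1, g2, g3⟩ := (P v v.2).2.2.2 hlt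
    exact ⟨⟨(v : ℕ) ||| 2 ^ (U v), hol _ _ v.2 g1⟩, CE_or g1 g2, g3⟩
  · intro v hlt
    simp only [card_ms] at hlt
    obtain ⟨x, g1, g2, g3, -⟩ := (P v v.2).2.2.1 hlt
    refine ⟨⟨(v : ℕ) ^^^ 2 ^ x, hxl _ _ v.2 g1⟩, ?_, g3⟩
    have := CE_or g1 (xor_or g2).2
    rw [(xor_or g2).1] at this
    exact this
  · intro v
    apply Fin.ext
    rw [hval, rotA_seven]
  · intro v
    simp only [card_ms]
    exact hcar v
  · intro v w hvw
    show CE (ms n (rotA k v)) (ms n (rotA k w))
    rw [ms_rotA k n v hk, ms_rotA k n w hk]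
    refine ⟨Finset.map_subset_map.2 hvw.1, ?_⟩
    rw [Finset.card_map, Finset.card_map]
    exact hvw.2
  · intro d hd0 hd7 v w hvw h1 h2
    have hr : pc n w = pc n v + 1 := by
      have := hvw.2
      rwa [card_ms, card_ms] at this
    have h2' : F ((rotA k)^[d] (v : ℕ)) = F ((rotA k)^[d] (w : ℕ)) := by
      rw [← hval, ← hval]
      exact h2
    have key : ∀ a b : ℕ, a < 2 ^ n → b < 2 ^ n → pc n b = pc n a + 1 → F a = F b →
        pc n a + F a / 2 ^ n < n ∧ U a < n ∧ a.testBit (U a) = false ∧ b = a ||| 2 ^ (U a) := by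
      intro a b ha hb hab h1
      have p2 := (P b hb).1.2
      have hlt : pc n a + F a / 2 ^ n < n := by rw [h1]; omega
      obtain ⟨g1, g2, g3⟩ := (P a ha).2.2.2 hlt
      refine ⟨hlt, g1, g2, ?_⟩
      refine inj _ _ _ hb (hol _ _ ha g1) (by rw [g3, h1]) ?_ rfl
      have := (CE_or g1 g2).2
      rw [card_ms, card_ms] at this
      omega
    obtain ⟨b1, b2, b3, b4⟩ := key v w v.2 w.2 hr h1
    obtain ⟨c1, c2, c3, c4⟩ := key _ _ (hRi d v v.2) (hRi d w w.2)
      (by rw [hcari, hcari, hr]) h2'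
    rw [hcari] at c1
    apply Q d hd0 (by omega) v v.2 b1 c1
    -- the bit of the image
    have e1 : ((rotA k)^[d] (w : ℕ)).testBit ((rho k)^[d] (U v)) = true := by
      rw [rotA_spec_iter, b4, Nat.testBit_or, Nat.testBit_two_pow]
      simp
    have e2 : ((rotA k)^[d] (v : ℕ)).testBit ((rho k)^[d] (U v)) = false := by
      rw [rotA_spec_iter, b3]
    rw [c4, Nat.testBit_or, Nat.testBit_two_pow, e2] at e1
    simpa using e1

end Pool.Agent.H54S
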